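import Pool.Agent.Helper49_HM.Dyn

namespace Pool.Agent.HM.H12

open Complex Set Topology Pool.Agent.HM

theorem lz0 : lz 0 = 0 := by decide
theorem lz1 : lz 1 = 2 := by decide
theorem lz2 : lz 2 = 1 := by decide
theorem lw0 : lw 0 = 1 := by decide
theorem lw1 : lw 1 = 2 := by decide
theorem lw2 : lw 2 = 0 := by decide

theorem lzs0 : lz.symm 0 = 0 := by decide
theorem lzs1 : lz.symm 1 = 2 := by decide
theorem lzs2 : lz.symm 2 = 1 := by decide
theorem lws0 : lw.symm 0 = 2 := by decide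
theorem lws1 : lw.symm 1 = 0 := by decide
theorem lws2 : lw.symm 2 = 1 := by decide

theorem swA (m : Fin 3 → ℝ) (hm : ∀ i, 0 < m i) (p : ℂ × ℂ) :
    embP (lab m lw) lw (swv (lab m lz) p) = embP (lab m lz) lz p := by
  have h0 : (m 0 : ℂ) ≠ 0 := by exact_mod_cast (hm 0).ne'
  have h1 : (m 1 : ℂ) ≠ 0 := by exact_mod_cast (hm 1).ne'
  have h2 : (m 2 : ℂ) ≠ 0 := by exact_mod_cast (hm 2).ne'
  have h01 : (m 0 : ℂ) + m 1 ≠ 0 := by exact_mod_cast (add_pos (hm 0) (hm 1)).ne'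
  have h02 : (m 0 : ℂ) + m 2 ≠ 0 := by exact_mod_cast (add_pos (hm 0) (hm 2)).ne'
  have h12 : (m 1 : ℂ) + m 2 ≠ 0 := by exact_mod_cast (add_pos (hm 1) (hm 2)).ne'
  have h20 : (m 2 : ℂ) + m 0 ≠ 0 := by exact_mod_cast (add_pos (hm 2) (hm 0)).ne'
  have h21 : (m 2 : ℂ) + m 1 ≠ 0 := by exact_mod_cast (add_pos (hm 2) (hm 1)).ne'
  have hs : (m 0 : ℂ) + m 1 + m 2 ≠ 0 := by
    exact_mod_cast (add_pos (add_pos (hm 0) (hm 1)) (hm 2)).ne'
  have hs' : (m 0 : ℂ) + m 2 + m 1 ≠ 0 := by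
    exact_mod_cast (add_pos (add_pos (hm 0) (hm 2)) (hm 1)).ne'
  have hs'' : (m 1 : ℂ) + m 2 + m 0 ≠ 0 := by
    exact_mod_cast (add_pos (add_pos (hm 1) (hm 2)) (hm 0)).ne'
  funext i
  fin_cases i
  · simp only [embP, Fin.zero_eta, lws0, lzs0, swv, vA, vB, w0, w1, mT, lab, lz0, lz1, lz2,
      lw0, lw1, lw2, swm, Matrix.cons_val_zero, Matrix.cons_val_one, Matrix.cons_val]
    push_cast
    field_simp
    ring
  · simp only [embP, Fin.mk_one, lws1, lzs1, swv, vA, vB, w0, w1, mT, lab, lz0, lz1, lz2,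
      lw0, lw1, lw2, swm, Matrix.cons_val_zero, Matrix.cons_val_one, Matrix.cons_val]
    push_cast
    field_simp
    ring
  · simp only [embP, Fin.reduceFinMk, lws2, lzs2, swv, vA, vB, w0, w1, mT, lab, lz0, lz1, lz2,
      lw0, lw1, lw2, swm, Matrix.cons_val_zero, Matrix.cons_val_one, Matrix.cons_val]
    push_cast
    field_simp
    ring

theorem swB (m : Fin 3 → ℝ) (hm : ∀ i, 0 < m i) (p : ℂ × ℂ) :
    embP (lab m lz) lz (swv (lab m lw) p) = embP (lab m lw) lw p := by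
  have h0 : (m 0 : ℂ) ≠ 0 := by exact_mod_cast (hm 0).ne'
  have h1 : (m 1 : ℂ) ≠ 0 := by exact_mod_cast (hm 1).ne'
  have h2 : (m 2 : ℂ) ≠ 0 := by exact_mod_cast (hm 2).ne'
  have h01 : (m 0 : ℂ) + m 1 ≠ 0 := by exact_mod_cast (add_pos (hm 0) (hm 1)).ne'
  have h02 : (m 0 : ℂ) + m 2 ≠ 0 := by exact_mod_cast (add_pos (hm 0) (hm 2)).ne'
  have h12 : (m 1 : ℂ) + m 2 ≠ 0 := by exact_mod_cast (add_pos (hm 1) (hm 2)).ne'
  have h20 : (m 2 : ℂ) + m 0 ≠ 0 := by exact_mod_cast (add_pos (hm 2) (hm 0)).ne'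
  have h21 : (m 2 : ℂ) + m 1 ≠ 0 := by exact_mod_cast (add_pos (hm 2) (hm 1)).ne'
  have hs : (m 0 : ℂ) + m 1 + m 2 ≠ 0 := by
    exact_mod_cast (add_pos (add_pos (hm 0) (hm 1)) (hm 2)).ne'
  have hs' : (m 0 : ℂ) + m 2 + m 1 ≠ 0 := by
    exact_mod_cast (add_pos (add_pos (hm 0) (hm 2)) (hm 1)).ne'
  have hs'' : (m 1 : ℂ) + m 2 + m 0 ≠ 0 := by
    exact_mod_cast (add_pos (add_pos (hm 1) (hm 2)) (hm 0)).ne'
  funext i
  fin_cases i
  · simp only [embP, Fin.zero_eta, lws0, lzs0, swv, vA, vB, w0, w1, mT, lab, lz0, lz1, lz2,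
      lw0, lw1, lw2, swm, Matrix.cons_val_zero, Matrix.cons_val_one, Matrix.cons_val]
    push_cast
    field_simp
    ring
  · simp only [embP, Fin.mk_one, lws1, lzs1, swv, vA, vB, w0, w1, mT, lab, lz0, lz1, lz2,
      lw0, lw1, lw2, swm, Matrix.cons_val_zero, Matrix.cons_val_one, Matrix.cons_val]
    push_cast
    field_simp
    ring
  · simp only [embP, Fin.reduceFinMk, lws2, lzs2, swv, vA, vB, w0, w1, mT, lab, lz0, lz1, lz2,
      lw0, lw1, lw2, swm, Matrix.cons_val_zero, Matrix.cons_val_one, Matrix.cons_val]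
    push_cast
    field_simp
    ring

theorem sws : SwStmt := by
  intro m hm
  refine ⟨?_, ?_, fun X => ?_, fun X => ?_⟩
  · funext i
    fin_cases i <;> simp [lab, swm, lz0, lz1, lz2, lw0, lw1, lw2]
  · funext i
    fin_cases i <;> simp [lab, swm, lz0, lz1, lz2, lw0, lw1, lw2]
  · unfold emb sw
    exact Prod.ext (swA m hm _) (swA m hm _)
  · unfold emb sw
    exact Prod.ext (swB m hm _) (swB m hm _)

end Pool.Agent.HM.H12
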